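import Pool.Agent.Helper75.OE.GoalsA2
import Pool.Agent.Helper73.OE.Geo

set_option autoImplicit false

namespace Pool.Agent.Helper83.OE

open Pool.Agent.Helper73.OE Pool.Agent.Helper73.OE.Sys Finset Pool.Agent.Helper75.OE

theorem inv (h1 : A_TLOC) (h2 : A_TRM) (h3 : A_TRI) : A_INV := by
  intro H S L _ _ X P O i v p y f hsym hMA hO hne hi
  have hav : X.Av O P.M f (2 * (i.1 : ℕ) + 1) v p y i.2 := by
    classical
    unfold AS at hi
    exact (mem_filter.1 hi).2
  have hMA' : X.MA O (X.Sd v p) f := fun z s _ _ h ↦ hMA z s trivial trivial h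
  have hloc := (h1 H S L X O O P.M (2 * (i.1 : ℕ) + 1) v p y i.2 f f hne.symm hMA'
    (fun _ _ ↦ rfl) (fun _ _ _ _ ↦ Iff.rfl)).2 hav
  obtain ⟨t1, t2⟩ := h2 H S L X O P.M (2 * (i.1 : ℕ) + 1) v p y i.2 f hsym hne.symm hMA' hav
  obtain ⟨t3, t4⟩ := h3 H S L X O P.M (2 * (i.1 : ℕ) + 1) v p y i.2 f hsym hne.symm hMA' hav
  refine ⟨?_, t1, hloc.1, ?_, t4⟩
  · intro z s _ _ hzs
    by_cases hz : z ∈ X.Sd v p
    · by_cases hz' : X.nb z s ∈ X.Sd v p
      · exact t2 z s hz hz' hzs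
      · obtain ⟨e1, e2⟩ := X.Sd_edge hz hz'
        rw [e1, e2] at hzs
        exact absurd hzs hO
    · by_cases hz' : X.nb z s ∈ X.Sd v p
      · have h4 : X.nb (X.nb z s) (X.bar s) ∉ X.Sd v p := by
          rw [X.nb_bar]
          exact hz
        obtain ⟨e1, e2⟩ := X.Sd_edge hz' h4
        have h5 := (hsym z s).1 hzs
        rw [e1, e2] at h5
        exact absurd h5 hO
      · have h6 := hMA z s trivial trivial hzs
        unfold Mt at h6 ⊢
        have e1 : X.TRi P O i v p y f (X.nb z s) = f (X.nb z s) := hloc.1 _ hz'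
        have e2 : X.TRi P O i v p y f z = f z := hloc.1 _ hz
        rw [e1, e2]
        exact h6
  · classical
    unfold AS
    exact mem_filter.2 ⟨mem_univ _, t3⟩

end Pool.Agent.Helper83.OE
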